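import Pool.Agent.W851.BE.Stm

/-!
# BE-EQ: all preimages of `ζ_{a,r}` in the closed disc
-/

set_option autoImplicit false

open Polynomial Topology Filter MeasureTheory

namespace Pool.Agent.W597.BE.Eq

open Pool.Agent.W95.BK Pool.Agent.W851.BE

universe u

/-! ### counting -/

open Classical in
theorem ms {α β : Type*} (s : Multiset α) (Z : Finset β) (p : α → Prop) (q : β → α → Prop)
    (p' : α → Prop) (h : ∀ w ∈ s, p w → p' w ∨ ∃ z ∈ Z, q z w) :
    (s.filter p).card ≤ ∑ z ∈ Z, (s.filter (q z)).card + (s.filter p').card := by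
  simp only [← Multiset.countP_eq_card_filter]
  induction s using Multiset.induction_on with
  | empty => simp
  | cons w s ih =>
    have ih' := ih fun v hv => h v (Multiset.mem_cons_of_mem hv)
    simp only [Multiset.countP_cons, Finset.sum_add_distrib]
    have key : (if p w then 1 else 0) ≤
        ∑ z ∈ Z, (if q z w then 1 else 0) + (if p' w then 1 else 0) := by
      by_cases h1 : p w
      · rcases h w (Multiset.mem_cons_self w s) h1 with h2 | ⟨z, hz, h2⟩
        · rw [if_pos h1, if_pos h2]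
          omega
        · rw [if_pos h1]
          have : (if q z w then 1 else 0) ≤ ∑ z ∈ Z, (if q z w then 1 else 0) :=
            Finset.single_le_sum (f := fun z => if q z w then 1 else 0)
              (fun _ _ => Nat.zero_le _) hz
          rw [if_pos h2] at this
          omega
      · rw [if_neg h1]
        exact Nat.zero_le _
    omega

section
variable {K : Type u} [NontriviallyNormedField K] [IsUltrametricDist K]

/-! ### contraction -/

theorem nsub (x y : K) : ‖x - y‖ ≤ max ‖x‖ ‖y‖ := by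
  rw [sub_eq_add_neg]
  exact (IsUltrametricDist.norm_add_le_max x (-y)).trans (by rw [norm_neg])

theorem evdiff (h : K[X]) (w v : K) (r M : ℝ) (hr : 0 < r) (hM : 0 ≤ M) (hvw : ‖v - w‖ < r)
    (hb : ∀ i, ‖(taylor w h).coeff i‖ * r ^ i ≤ M) :
    ‖h.eval v - h.eval w‖ ≤ M * (‖v - w‖ / r) := by
  have e1 : h.eval v = (taylor w h).eval (v - w) := by
    rw [taylor_eval]
    congr 1
    ring
  have e2 : h.eval w = (taylor w h).coeff 0 := by
    rw [taylor_coeff_zero]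
  rw [e1, e2, eval_eq_sum_range, Finset.sum_range_succ', pow_zero, mul_one, add_sub_cancel_right]
  have h0 : 0 ≤ ‖v - w‖ / r := div_nonneg (norm_nonneg _) hr.le
  have h1 : ‖v - w‖ / r ≤ 1 := (div_le_one hr).2 hvw.le
  refine IsUltrametricDist.norm_sum_le_of_forall_le_of_nonneg (mul_nonneg hM h0) fun i _ => ?_
  rw [norm_mul, norm_pow]
  have e3 : ‖v - w‖ = (‖v - w‖ / r) * r := by
    field_simp
  have e4 : ‖(taylor w h).coeff (i + 1)‖ * ‖v - w‖ ^ (i + 1) =
      (‖(taylor w h).coeff (i + 1)‖ * r ^ (i + 1)) * (‖v - w‖ / r) ^ (i + 1) := by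
    conv_lhs => rw [e3, mul_pow]
    ring
  rw [e4]
  refine mul_le_mul (hb _) ?_ (pow_nonneg h0 _) hM
  rw [pow_succ]
  calc (‖v - w‖ / r) ^ i * (‖v - w‖ / r) ≤ 1 * (‖v - w‖ / r) :=
        mul_le_mul_of_nonneg_right (pow_le_one₀ h0 h1) h0
    _ = _ := one_mul _

/-- two preimages in an open disc with `Nw = 0` have nearby images -/
theorem contr [IsAlgClosed K] (hNWI : S_NWI.{u}) (f : RMap K) (a w w' b b' : K) (r : ℝ)
    (hr : 0 < r) (hw : ‖w - a‖ ≤ r) (hb : ‖b - a‖ ≤ r) (hww : ‖w' - w‖ < r)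
    (hN : Nw f w r = 0) (h1 : (f.P - C b * f.Q).eval w = 0)
    (h2 : (f.P - C b' * f.Q).eval w' = 0) : ‖b' - b‖ < r := by
  obtain ⟨⟨hM0, hM1, -, -, -, hM2, -, -⟩, -⟩ := hNWI K f w r hr
  rw [hN] at hM1
  have hbw : ‖b - w‖ ≤ r := by
    have : b - w = (b - a) - (w - a) := by ring
    rw [this]
    exact (nsub _ _).trans (max_le hb hw)
  have hP : f.P.eval w = b * f.Q.eval w := by
    simpa [sub_eq_zero] using h1
  have hP' : f.P.eval w' = b' * f.Q.eval w' := by
    simpa [sub_eq_zero] using h2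
  set q : K := f.Q.eval w with hq
  have hv0 : Mx f w r = r * ‖q‖ := by
    rw [← hM1]
    unfold vI
    rw [taylor_coeff_zero, taylor_coeff_zero, pow_zero, mul_one]
    have : (f.P - C w * f.Q).eval w = (b - w) * q := by
      simp [hP]
      ring
    rw [this, norm_mul]
    exact max_eq_right (mul_le_mul_of_nonneg_right hbw (norm_nonneg _))
  have hq0 : 0 < ‖q‖ := by
    rw [hv0] at hM0
    by_contra hcon
    have : ‖q‖ = 0 := le_antisymm (not_lt.1 hcon) (norm_nonneg _)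
    rw [this, mul_zero] at hM0
    exact lt_irrefl _ hM0
  have hQi : ∀ i, ‖(taylor w f.Q).coeff i‖ * r ^ i ≤ ‖q‖ := by
    intro i
    have h3 := hM2 i
    rw [hv0] at h3
    unfold vI at h3
    have h4 : r * ‖(taylor w f.Q).coeff i‖ * r ^ i ≤ r * ‖q‖ :=
      le_trans (mul_le_mul_of_nonneg_right (le_max_right _ _) (pow_nonneg hr.le _)) h3
    rw [mul_assoc] at h4
    exact le_of_mul_le_mul_left h4 hr
  have hHi : ∀ i, ‖(taylor w (f.P - C b * f.Q)).coeff i‖ * r ^ i ≤ r * ‖q‖ := by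
    intro i
    have h3 := hM2 i
    rw [hv0] at h3
    refine le_trans (mul_le_mul_of_nonneg_right ?_ (pow_nonneg hr.le _)) h3
    have e : f.P - C b * f.Q = (f.P - C w * f.Q) - C (b - w) * f.Q := by
      rw [C_sub]
      ring
    have e' : (taylor w (f.P - C b * f.Q)).coeff i = (taylor w (f.P - C w * f.Q)).coeff i -
        (b - w) * (taylor w f.Q).coeff i := by
      rw [e, map_sub, coeff_sub, taylor_mul, taylor_C, coeff_C_mul]
    rw [e']
    refine (nsub _ _).trans (max_le_max le_rfl ?_)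
    rw [norm_mul]
    exact mul_le_mul_of_nonneg_right hbw (norm_nonneg _)
  have k1 := evdiff f.Q w w' r ‖q‖ hr (norm_nonneg _) hww hQi
  have k2 := evdiff (f.P - C b * f.Q) w w' r (r * ‖q‖) hr (by positivity) hww hHi
  have hlt1 : ‖w' - w‖ / r < 1 := (div_lt_one hr).2 hww
  have k3 : ‖f.Q.eval w' - q‖ < ‖q‖ := by
    refine lt_of_le_of_lt k1 ?_
    calc ‖q‖ * (‖w' - w‖ / r) < ‖q‖ * 1 := mul_lt_mul_of_pos_left hlt1 hq0
      _ = ‖q‖ := mul_one _
  have k4 : ‖f.Q.eval w'‖ = ‖q‖ := by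
    have h5 : f.Q.eval w' = (f.Q.eval w' - q) + q := by ring
    rw [h5]
    rw [IsUltrametricDist.norm_add_eq_max_of_norm_ne_norm (ne_of_lt k3)]
    exact max_eq_right k3.le
  have k5 : (f.P - C b * f.Q).eval w' - (f.P - C b * f.Q).eval w = (b' - b) * f.Q.eval w' := by
    rw [h1]
    simp [hP']
    ring
  rw [k5, norm_mul, k4] at k2
  have k6 : ‖b' - b‖ * ‖q‖ ≤ ‖w' - w‖ * ‖q‖ := by
    calc ‖b' - b‖ * ‖q‖ ≤ r * ‖q‖ * (‖w' - w‖ / r) := k2
      _ = ‖w' - w‖ * ‖q‖ := by field_simp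
  exact lt_of_le_of_lt (le_of_mul_le_mul_right k6 hq0) hww

/-! ### generic points -/

/-- `p` holds for generic `b` in the closed disc -/
def Gn (a : K) (r : ℝ) (p : K → Prop) : Prop :=
  ∃ B : Finset K, ∀ b : K, ‖b - a‖ ≤ r → (∀ β ∈ B, r ≤ ‖b - β‖) → p b

omit [IsUltrametricDist K] in
theorem Gn.and {a : K} {r : ℝ} {p q : K → Prop} (h1 : Gn a r p) (h2 : Gn a r q) :
    Gn a r fun b => p b ∧ q b := by
  classical
  obtain ⟨B, hB⟩ := h1
  obtain ⟨B', hB'⟩ := h2
  refine ⟨B ∪ B', fun b hb hbb => ⟨hB b hb fun β hβ => ?_, hB' b hb fun β hβ => ?_⟩⟩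
  · exact hbb β (Finset.mem_union_left _ hβ)
  · exact hbb β (Finset.mem_union_right _ hβ)

omit [IsUltrametricDist K] in
theorem Gn.fin {a : K} {r : ℝ} (E : Finset K) {p : K → K → Prop} (h : ∀ e ∈ E, Gn a r (p e)) :
    Gn a r fun b => ∀ e ∈ E, p e b := by
  classical
  induction E using Finset.induction_on with
  | empty => exact ⟨∅, fun b _ _ e he => absurd he (Finset.notMem_empty e)⟩
  | insert e E he ih =>
    have h1 := h e (Finset.mem_insert_self e E)
    have h2 := ih fun e' he' => h e' (Finset.mem_insert_of_mem he')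
    obtain ⟨B, hB⟩ := h1.and h2
    refine ⟨B, fun b hb hbb e' he' => ?_⟩
    rcases Finset.mem_insert.1 he' with rfl | he''
    · exact (hB b hb hbb).1
    · exact (hB b hb hbb).2 e' he''

omit [IsUltrametricDist K] in
theorem Gn.mono {a : K} {r : ℝ} {p q : K → Prop} (h1 : Gn a r p)
    (h : ∀ b, ‖b - a‖ ≤ r → p b → q b) : Gn a r q := by
  obtain ⟨B, hB⟩ := h1
  exact ⟨B, fun b hb hbb => h b hb (hB b hb hbb)⟩

theorem Gn.ex [IsAlgClosed K] (hGEN : S_GEN.{u}) {a c : K} {r : ℝ} (hr : 0 < r) (hc : ‖c‖ = r)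
    {p : K → Prop} (h : Gn a r p) : ∃ b, ‖b - a‖ ≤ r ∧ p b := by
  obtain ⟨B, hB⟩ := h
  have hc0 : c ≠ 0 := by
    intro h0
    rw [h0, norm_zero] at hc
    exact absurd hc (ne_of_lt hr)
  obtain ⟨b, hb, hbb, -⟩ := hGEN K a c ∅ B hc0 (fun h hh => absurd hh (Finset.notMem_empty h))
  rw [hc] at hb hbb
  exact ⟨b, hb, hB b hb hbb⟩

/-- generic points have no preimages in a given direction with `Nw = 0` -/
theorem gdir [IsAlgClosed K] (hNWI : S_NWI.{u}) (f : RMap K) (a e : K) (r : ℝ) (hr : 0 < r) :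
    Gn a r fun b => ∀ w, ‖w - e‖ < r → ‖w - a‖ ≤ r → Nw f w r = 0 →
      (f.P - C b * f.Q).eval w ≠ 0 := by
  by_cases hex : ∃ b w, ‖b - a‖ ≤ r ∧ ‖w - e‖ < r ∧ ‖w - a‖ ≤ r ∧ Nw f w r = 0 ∧
      (f.P - C b * f.Q).eval w = 0
  · obtain ⟨b₀, w₀, hb₀, hwe₀, hwa₀, hN₀, h₀⟩ := hex
    refine ⟨{b₀}, fun b hb hbb w hwe hwa hN h => ?_⟩
    have h1 := hbb b₀ (Finset.mem_singleton_self _)
    have h2 : ‖w - w₀‖ < r := by
      have : w - w₀ = (w - e) - (w₀ - e) := by ring
      rw [this]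
      exact lt_of_le_of_lt (nsub _ _) (max_lt hwe hwe₀)
    exact absurd (contr hNWI f a w₀ w b₀ b r hr hwa₀ hb₀ h2 hN₀ h₀ h) (not_lt.2 h1)
  · refine ⟨∅, fun b hb _ w hwe hwa hN h => ?_⟩
    exact hex ⟨b, w, hb, hwe, hwa, hN, h⟩

/-- preimages of generic points outside the directions with `Nw ≥ 1` are close to `ζ_{a,r}` -/
theorem gnb [IsAlgClosed K] (hNWI : S_NWI.{u}) (hNBGEN : S_NBGEN.{u}) (f : RMap K) (a c : K)
    (r : ℝ) (hr : 0 < r) (hc : ‖c‖ = r) (U : Set (P1B K))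
    (hU : U ∈ 𝓝 ((gauss a r hr : BA K) : P1B K)) :
    Gn a r fun b => ∀ w, ‖w - a‖ ≤ r → Nw f w r = 0 → (f.P - C b * f.Q).eval w = 0 →
      ((cl w : BA K) : P1B K) ∈ U := by
  obtain ⟨E, hE⟩ := hNBGEN K a c r hr hc U hU
  refine (Gn.fin E fun e _ => gdir hNWI f a e r hr).mono fun b _ hb w hw hN h => ?_
  refine hE w hw fun e he => ?_
  by_contra hcon
  exact hb e he w (not_le.1 hcon) hw hN h

/-- maximal families of directions -/
theorem exZ [IsAlgClosed K] (hSUMDIR : S_SUMDIR.{u}) (f : RMap K) (a c : K) (r : ℝ) (hr : 0 < r)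
    (hc : ‖c‖ = r) : ∃ Z : Finset K, dirs a r Z ∧
      ∀ w, ‖w - a‖ ≤ r → Nw f w r ≠ 0 → ∃ z ∈ Z, ‖w - z‖ < r := by
  classical
  set S : Set ℕ := {n | ∃ Z : Finset K, (dirs a r Z ∧ ∀ z ∈ Z, Nw f z r ≠ 0) ∧ Z.card = n} with hS
  have hne : S.Nonempty := by
    refine ⟨0, ∅, ⟨⟨?_, ?_⟩, ?_⟩, rfl⟩
    · intro z hz
      exact absurd hz (Finset.notMem_empty z)
    · intro z hz
      exact absurd hz (Finset.notMem_empty z)
    · intro z hz
      exact absurd hz (Finset.notMem_empty z)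
  have hbd : BddAbove S := by
    refine ⟨Iw f a r, ?_⟩
    rintro n ⟨Z, ⟨hZ, hZ1⟩, rfl⟩
    refine le_trans ?_ (hSUMDIR K f a c r hr hc Z hZ.1 hZ.2)
    calc Z.card = ∑ z ∈ Z, 1 := by simp
      _ ≤ ∑ z ∈ Z, Nw f z r := Finset.sum_le_sum fun z hz => Nat.one_le_iff_ne_zero.2 (hZ1 z hz)
  obtain ⟨Z, ⟨hZ, hZ1⟩, hcard⟩ := Nat.sSup_mem hne hbd
  refine ⟨Z, hZ, fun w hw hN => ?_⟩
  by_contra hcon
  push Not at hcon
  have hwZ : w ∉ Z := by
    intro hm
    have := hcon w hm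
    rw [sub_self, norm_zero] at this
    exact absurd this (not_le.2 hr)
  have hmem : (insert w Z).card ∈ S := by
    refine ⟨insert w Z, ⟨⟨?_, ?_⟩, ?_⟩, rfl⟩
    · intro z hz
      rcases Finset.mem_insert.1 hz with rfl | hz
      · exact hw
      · exact hZ.1 z hz
    · intro z hz z' hz' hne'
      rcases Finset.mem_insert.1 hz with h1 | h1
      · rcases Finset.mem_insert.1 hz' with h2 | h2
        · exact absurd (h1.trans h2.symm) hne'
        · rw [h1]
          exact hcon z' h2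
      · rcases Finset.mem_insert.1 hz' with h2 | h2
        · rw [norm_sub_rev, h2]
          exact hcon z h1
        · exact hZ.2 z h1 z' h2 hne'
    · intro z hz
      rcases Finset.mem_insert.1 hz with rfl | hz
      · exact hN
      · exact hZ1 z hz
  have h1 := le_csSup hbd hmem
  rw [← hcard, Finset.card_insert_of_notMem hwZ] at h1
  omega

/-- the preimages in the directions with `Nw = 0` -/
def Sr (f : RMap K) (a : K) (r : ℝ) : Set K := {w | ‖w - a‖ ≤ r ∧ Nw f w r = 0}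

theorem cntge [IsAlgClosed K] (f : RMap K) (a : K) (r : ℝ) (U : Set (P1B K)) (b : K)
    (h : ∀ w, ‖w - a‖ ≤ r → Nw f w r = 0 → (f.P - C b * f.Q).eval w = 0 →
      ((cl w : BA K) : P1B K) ∈ U) :
    nIn (f.P - C b * f.Q) (Sr f a r) ≤ cnt f U b := by
  classical
  unfold cnt fib nIn
  rw [Multiset.filter_add, Multiset.card_add, Multiset.filter_map, Multiset.card_map]
  refine le_trans ?_ (Nat.le_add_right _ _)
  refine Multiset.card_le_card ?_
  rw [Multiset.le_filter]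
  refine ⟨Multiset.filter_le _ _, fun w hw => ?_⟩
  rw [Multiset.mem_filter] at hw
  exact h w hw.2.1 hw.2.2 (isRoot_of_mem_roots hw.1)

end

theorem main (hSUMDIR : S_SUMDIR.{u}) (hNWROOT : S_NWROOT.{u}) (hNWI : S_NWI.{u})
    (hNBGEN : S_NBGEN.{u}) (hGEN : S_GEN.{u}) (hACT : S_ACT.{u}) (hACTC : S_ACTC.{u})
    (hT2 : S_T2.{u}) (hLDEX : S_LDEX.{u}) (hGLAM : S_GLAM.{u}) : S_EQ.{u} := by
  classical
  intro K _ _ _ f a c r hr hc
  obtain ⟨Z, hZ, hZ1⟩ := exZ hSUMDIR f a c r hr hc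
  refine ⟨Z, hZ, ?_⟩
  rw [zt_pos a hr]
  set x : BA K := gauss a r hr with hx
  -- counting for generic points
  have hcount : Gn a r fun b => Iw f a r ≤ ∑ z ∈ Z, Nw f z r +
      nIn (f.P - C b * f.Q) (Sr f a r) := by
    have g1 : Gn a r fun b => nIn (f.P - C b * f.Q) {w | ‖w - a‖ ≤ r} = Iw f a r := by
      obtain ⟨B, s₁, s₂, -, -, -, hB⟩ := hNWROOT K f a c r hr hc
      exact ⟨B, fun b hb hbb => (hB b hb hbb).2.2.2.1⟩
    have g2 : Gn a r fun b => ∀ z ∈ Z, nIn (f.P - C b * f.Q) {w | ‖w - z‖ < r} = Nw f z r := by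
      refine Gn.fin Z fun z hz => ?_
      obtain ⟨B, s₁, s₂, -, -, -, hB⟩ := hNWROOT K f z c r hr hc
      refine ⟨B, fun b hb hbb => (hB b ?_ hbb).2.1⟩
      have : b - z = (b - a) - (z - a) := by ring
      rw [this]
      exact (nsub _ _).trans (max_le hb (hZ.1 z hz))
    refine (g1.and g2).mono fun b _ hb => ?_
    rw [← hb.1, ← Finset.sum_congr rfl hb.2]
    unfold nIn
    refine ms _ Z _ (fun z w => w ∈ {w | ‖w - z‖ < r}) _ fun w _ hw => ?_
    by_cases hN : Nw f w r = 0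
    · exact Or.inl ⟨hw, hN⟩
    · exact Or.inr (hZ1 w hw hN)
  constructor
  · intro hfix
    have hHK : HK x := by
      intro z hz
      have h1 := ((hGLAM K a z).2 r hr)
      have h2 := (hGLAM K z z).1
      rw [← hx, hz, h2, sub_self, norm_zero] at h1
      exact absurd h1 (ne_of_lt (lt_of_lt_of_le hr (le_max_right _ _)))
    obtain ⟨m, -, hm, hm'⟩ := hLDEX K f x hHK
    rw [hm']
    obtain ⟨U, hU, -, hev⟩ := hm Set.univ univ_mem
    rw [hfix] at hev
    obtain ⟨V, hV, hVs⟩ := mem_comap.1 hev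
    obtain ⟨B, hB⟩ := hNBGEN K a c r hr hc V hV
    have g3 : Gn a r fun b => cnt f U b = m := ⟨B, fun b hb hbb => hVs (hB b hb hbb)⟩
    obtain ⟨b, -, ⟨h1, h2⟩, h3⟩ := Gn.ex hGEN hr hc
      ((hcount.and g3).and (gnb hNWI hNBGEN f a c r hr hc U hU))
    have h4 := cntge f a r U b h3
    rw [h2] at h4
    omega
  · intro hfix
    have _ := (hT2 K).2.2.1
    obtain ⟨V₁, V₂, hV₁, hV₂, hm1, hm2, hdis⟩ := t2_separation hfix
    have hU : f.act ⁻¹' V₁ ∈ 𝓝 (x : P1B K) :=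
      (hV₁.preimage (hACTC K f)).mem_nhds hm1
    obtain ⟨B, hB⟩ := hNBGEN K a c r hr hc V₂ (hV₂.mem_nhds hm2)
    have g3 : Gn a r fun b => ((cl b : BA K) : P1B K) ∈ V₂ := ⟨B, fun b hb hbb => hB b hb hbb⟩
    obtain ⟨b, -, ⟨h1, h2⟩, h3⟩ := Gn.ex hGEN hr hc
      ((hcount.and g3).and (gnb hNWI hNBGEN f a c r hr hc _ hU))
    have h4 : nIn (f.P - C b * f.Q) (Sr f a r) = 0 := by
      unfold nIn
      rw [Multiset.card_eq_zero, Multiset.filter_eq_nil]
      intro w hw hwS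
      have h5 := h3 w hwS.1 hwS.2 (isRoot_of_mem_roots hw)
      have h6 : f.act ((cl w : BA K) : P1B K) = ((cl b : BA K) : P1B K) := by
        refine (hACT K f).2.2.2.1 b _ ?_
        unfold fib
        rw [Multiset.mem_add]
        exact Or.inl (Multiset.mem_map_of_mem _ hw)
      have h7 : ((cl b : BA K) : P1B K) ∈ V₁ := by
        rw [← h6]
        exact h5
      exact Set.disjoint_left.1 hdis h7 h2
    omega

end Pool.Agent.W597.BE.Eq
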